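import Pool.Agent.X83.DM.Stm

set_option autoImplicit false

namespace Pool.Agent.X284.DM

open MeasureTheory Set Filter Topology Real Pool.Agent.X83.DM

lemma aux_nonneg (x : ℝ) : 0 ≤ 1 + (x - 1) * exp x := by
  have h1 : 1 - x ≤ exp (-x) := one_sub_le_exp_neg x
  have h2 : (1 - x) * exp x ≤ exp (-x) * exp x := mul_le_mul_of_nonneg_right h1 (exp_pos x).le
  rw [← exp_add, neg_add_cancel, exp_zero] at h2
  nlinarith

lemma N_nonneg {c s r : ℝ} : 0 ≤ N c s r := by
  unfold N
  split_ifs with h
  · have h3 : c * r / 2 = r * c / 2 := by ring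
    rw [h3]
    exact mul_nonneg (by positivity) (aux_nonneg _)
  · rw [add_zero, mul_one]
    positivity

lemma N_meas (c : ℝ) : Measurable (fun p : ℝ × ℝ => N c p.1 p.2) := by
  unfold N
  refine Measurable.mul (by fun_prop) (Measurable.add measurable_const ?_)
  exact Measurable.ite (measurableSet_lt measurable_snd measurable_fst) (by fun_prop)
    measurable_const

lemma N_eq (c r s : ℝ) : N c s r = 1 / 2 * exp (-(c / 2) * s) +
    1 / 2 * ((r * c / 2 - 1) * exp (c * r / 2)) * (Ioi r).indicator (fun s => exp (-(c / 2) * s)) s := by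
  unfold N
  have h0 : -(c * s / 2) = -(c / 2) * s := by ring
  rw [h0]
  by_cases h : r < s
  · rw [if_pos h, indicator_of_mem (show s ∈ Ioi r from h)]
    ring
  · rw [if_neg h, indicator_of_notMem (show s ∉ Ioi r from h)]
    ring

lemma N_int {c : ℝ} (hc : 0 < c) {r : ℝ} (hr : 0 ≤ r) :
    IntegrableOn (fun s => N c s r) (Ioi 0) ∧ ∫ s in Ioi (0 : ℝ), N c s r = r / 2 := by
  have ha : -(c / 2) < 0 := by linarith
  have h1 : IntegrableOn (fun s => 1 / 2 * exp (-(c / 2) * s)) (Ioi (0 : ℝ)) :=
    (integrableOn_exp_mul_Ioi ha 0).const_mul _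
  have h2 : IntegrableOn ((Ioi r).indicator (fun s => exp (-(c / 2) * s))) (Ioi (0 : ℝ)) :=
    (integrableOn_exp_mul_Ioi ha 0).indicator measurableSet_Ioi
  have h3 := h2.const_mul (1 / 2 * ((r * c / 2 - 1) * exp (c * r / 2)))
  have hfun : (fun s => N c s r) = fun s => 1 / 2 * exp (-(c / 2) * s) +
      1 / 2 * ((r * c / 2 - 1) * exp (c * r / 2)) *
        (Ioi r).indicator (fun s => exp (-(c / 2) * s)) s := by
    funext s; exact N_eq c r s
  refine ⟨?_, ?_⟩
  · rw [hfun]; exact h1.add h3
  · rw [hfun, integral_add h1 h3, integral_const_mul, integral_const_mul,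
      integral_exp_mul_Ioi ha 0, setIntegral_indicator measurableSet_Ioi]
    have h4 : Ioi (0 : ℝ) ∩ Ioi r = Ioi r := by
      ext x; simp only [mem_inter_iff, mem_Ioi]; constructor
      · exact fun h => h.2
      · exact fun h => ⟨by linarith, h⟩
    rw [h4, integral_exp_mul_Ioi ha r]
    have h5 : exp (c * r / 2) * exp (-(c / 2) * r) = 1 := by
      rw [← exp_add]; ring_nf; exact exp_zero
    have hc0 : c ≠ 0 := hc.ne'
    rw [mul_zero, exp_zero]
    have h6 : 1 / 2 * ((r * c / 2 - 1) * exp (c * r / 2)) * (-exp (-(c / 2) * r) / -(c / 2)) =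
        1 / 2 * (r * c / 2 - 1) * (exp (c * r / 2) * exp (-(c / 2) * r)) / (c / 2) := by
      field_simp
    rw [h6, h5]
    field_simp
    ring

theorem t_NK : S_NK := by
  intro c hc
  refine ⟨fun s r _ => N_nonneg, ?_⟩
  intro h M η hcont hη hh
  have hhint : IntegrableOn (fun r => M * exp (-η * r)) (Ioi (0 : ℝ)) :=
    (integrableOn_exp_mul_Ioi (by linarith) 0).const_mul _
  have hh1 : IntegrableOn h (Ioi (0 : ℝ)) := by
    refine Integrable.mono' hhint hcont.aestronglyMeasurable ?_
    refine (ae_restrict_iff' measurableSet_Ioi).2 (Eventually.of_forall fun r hr => ?_)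
    have := hh r (le_of_lt hr)
    rw [Real.norm_eq_abs, abs_of_nonneg this.1]
    have h0 : -η * r = -(η * r) := by ring
    rw [h0]; exact this.2
  have hrh : IntegrableOn (fun r => r / 2 * h r) (Ioi (0 : ℝ)) := by
    have h7 : IntegrableOn (fun r : ℝ => |M| * (r ^ (1 : ℝ) * exp (-η * r))) (Ioi (0 : ℝ)) :=
      (integrableOn_rpow_mul_exp_neg_mul_rpow (s := 1) (p := 1) (by norm_num) one_pos hη |>.congr_fun
        (fun x _ => by simp) measurableSet_Ioi).const_mul _
    refine Integrable.mono' h7 (by fun_prop) ?_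
    refine (ae_restrict_iff' measurableSet_Ioi).2 (Eventually.of_forall fun r hr => ?_)
    have hr0 : (0 : ℝ) < r := hr
    have h8 := hh r hr0.le
    rw [Real.norm_eq_abs, abs_of_nonneg (mul_nonneg (by linarith) h8.1), rpow_one]
    have h0 : -η * r = -(η * r) := by ring
    rw [h0]
    have h9 : h r ≤ |M| * exp (-(η * r)) :=
      h8.2.trans (mul_le_mul_of_nonneg_right (le_abs_self M) (exp_pos _).le)
    have h10 : r / 2 * h r ≤ r * (|M| * exp (-(η * r))) := by
      have : 0 ≤ |M| * exp (-(η * r)) := by positivity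
      nlinarith
    linarith [h10, show r * (|M| * exp (-(η * r))) = |M| * (r * exp (-(η * r))) by ring]
  have hmeas : AEStronglyMeasurable (fun p : ℝ × ℝ => N c p.1 p.2 * h p.2)
      ((volume.restrict (Ioi (0 : ℝ))).prod (volume.restrict (Ioi (0 : ℝ)))) :=
    ((N_meas c).mul (hcont.measurable.comp measurable_snd)).aestronglyMeasurable
  have hprod : Integrable (fun p : ℝ × ℝ => N c p.1 p.2 * h p.2)
      ((volume.restrict (Ioi (0 : ℝ))).prod (volume.restrict (Ioi (0 : ℝ)))) := by
    rw [integrable_prod_iff' hmeas]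
    refine ⟨?_, ?_⟩
    · refine (ae_restrict_iff' measurableSet_Ioi).2 (Eventually.of_forall fun r hr => ?_)
      exact (N_int hc (le_of_lt hr)).1.mul_const (h r)
    · refine hrh.congr_fun (fun r hr => ?_) measurableSet_Ioi |>.integrable
      have hr0 : (0 : ℝ) < r := hr
      have h11 : (fun s => ‖N c s r * h r‖) = fun s => N c s r * h r := by
        funext s
        rw [Real.norm_eq_abs, abs_of_nonneg (mul_nonneg N_nonneg (hh r hr0.le).1)]
      show r / 2 * h r = ∫ s in Ioi (0 : ℝ), ‖N c s r * h r‖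
      rw [h11, integral_mul_const, (N_int hc hr0.le).2]
  refine ⟨?_, ?_, ?_⟩
  · intro s hs
    have hb : ∀ r ∈ Ioi (0 : ℝ), |N c s r| ≤ 1 / 2 * (1 + (s * c / 2 + 1) * exp (c * s / 2)) := by
      intro r hr
      have hr0 : (0 : ℝ) < r := hr
      rw [abs_of_nonneg N_nonneg]
      unfold N
      have he : exp (-(c * s / 2)) ≤ 1 := exp_le_one_iff.2 (by
        have : 0 ≤ c * s / 2 := by positivity
        linarith)
      have hpos : 0 ≤ (s * c / 2 + 1) * exp (c * s / 2) := by positivity
      have h12 : (1 + if r < s then (r * c / 2 - 1) * exp (c * r / 2) else 0) ≤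
          1 + (s * c / 2 + 1) * exp (c * s / 2) := by
        split_ifs with hrs
        · have h13 : exp (c * r / 2) ≤ exp (c * s / 2) := exp_le_exp.2 (by nlinarith)
          have h14 : r * c / 2 - 1 ≤ s * c / 2 + 1 := by nlinarith
          have h15 : (r * c / 2 - 1) * exp (c * r / 2) ≤ (s * c / 2 + 1) * exp (c * r / 2) :=
            mul_le_mul_of_nonneg_right h14 (exp_pos _).le
          have h16 : (s * c / 2 + 1) * exp (c * r / 2) ≤ (s * c / 2 + 1) * exp (c * s / 2) :=
            mul_le_mul_of_nonneg_left h13 (by positivity)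
          linarith
        · linarith
      have h17 : 0 ≤ (1 + if r < s then (r * c / 2 - 1) * exp (c * r / 2) else 0) := by
        split_ifs with hrs
        · have h3 : c * r / 2 = r * c / 2 := by ring
          rw [h3]; exact aux_nonneg _
        · norm_num
      calc 1 / 2 * exp (-(c * s / 2)) * (1 + if r < s then (r * c / 2 - 1) * exp (c * r / 2) else 0)
          ≤ 1 / 2 * 1 * (1 + if r < s then (r * c / 2 - 1) * exp (c * r / 2) else 0) := by
            apply mul_le_mul_of_nonneg_right _ h17
            linarith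
        _ ≤ 1 / 2 * 1 * (1 + (s * c / 2 + 1) * exp (c * s / 2)) :=
            mul_le_mul_of_nonneg_left h12 (by norm_num)
        _ = _ := by ring
    have hm : AEStronglyMeasurable (fun r => N c s r) (volume.restrict (Ioi (0 : ℝ))) :=
      ((N_meas c).comp (measurable_const.prodMk measurable_id)).aestronglyMeasurable
    refine Integrable.bdd_mul hh1 hm ?_
      (c := 1 / 2 * (1 + (s * c / 2 + 1) * exp (c * s / 2)))
    exact (ae_restrict_iff' measurableSet_Ioi).2 (Eventually.of_forall fun r hr => by
      rw [Real.norm_eq_abs]; exact hb r hr)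
  · exact hprod.integral_prod_left
  · rw [integral_integral_swap (f := fun s r => N c s r * h r) hprod]
    refine setIntegral_congr_fun measurableSet_Ioi fun r hr => ?_
    have hr0 : (0 : ℝ) < r := hr
    show ∫ s in Ioi (0 : ℝ), N c s r * h r = r / 2 * h r
    rw [integral_mul_const, (N_int hc hr0.le).2]

end Pool.Agent.X284.DM
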